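import Pool.Agent.Helper16K9.Fast.DMM

set_option autoImplicit false

/-!
# The recursion for the total size and the depth
-/

namespace Pool.Agent.Helper16K9.Fast

open Finset Pool.Agent.W956.KF

variable {K : Type} [Field K]

/-- the number of blocks -/
theorem exists_blocks {j r : ℕ} {τ φ : ℝ} (hφ : 1 ≤ φ) (hτ : 2 ≤ τ) (h3 : r ≤ 2 ^ (3 * j))
    (hr : (r : ℝ) ≤ φ * (2 : ℝ) ^ (τ * j)) :
    ∃ a : ℕ, r ≤ a * 2 ^ (2 * j) ∧ a ≤ 2 ^ j ∧ (a : ℝ) ≤ 2 * φ * (2 : ℝ) ^ ((τ - 2) * j) := by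
  have hq : 0 < 2 ^ (2 * j) := by positivity
  refine ⟨(r + 2 ^ (2 * j) - 1) / 2 ^ (2 * j), ?_, ?_, ?_⟩
  · have h1 := Nat.div_add_mod (r + 2 ^ (2 * j) - 1) (2 ^ (2 * j))
    have h2 := Nat.mod_lt (r + 2 ^ (2 * j) - 1) hq
    rw [mul_comm] at h1
    omega
  · rw [Nat.div_le_iff_le_mul_add_pred hq]
    have : 2 ^ (2 * j) * 2 ^ j = 2 ^ (3 * j) := by rw [← pow_add]; congr 1; ring
    rw [this]
    omega
  · have h1 : (((r + 2 ^ (2 * j) - 1) / 2 ^ (2 * j) : ℕ) : ℝ) ≤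
        ((r + 2 ^ (2 * j) - 1 : ℕ) : ℝ) / ((2 ^ (2 * j) : ℕ) : ℝ) := Nat.cast_div_le
    have hq' : (0 : ℝ) < (2 : ℝ) ^ (2 * (j : ℝ)) := Real.rpow_pos_of_pos (by norm_num) _
    have hqe : ((2 ^ (2 * j) : ℕ) : ℝ) = (2 : ℝ) ^ (2 * (j : ℝ)) := by
      push_cast
      rw [← Real.rpow_natCast]
      congr 1
      push_cast
      ring
    have h2 : ((r + 2 ^ (2 * j) - 1 : ℕ) : ℝ) ≤ (r : ℝ) + (2 : ℝ) ^ (2 * (j : ℝ)) := by
      rw [← hqe]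
      have : r + 2 ^ (2 * j) - 1 ≤ r + 2 ^ (2 * j) := Nat.sub_le _ _
      exact_mod_cast this
    have h4 : φ * (2 : ℝ) ^ (τ * j) = φ * (2 : ℝ) ^ ((τ - 2) * j) * (2 : ℝ) ^ (2 * (j : ℝ)) := by
      rw [mul_assoc, ← Real.rpow_add (by norm_num)]
      congr 2
      ring
    have h5 : (1 : ℝ) ≤ (2 : ℝ) ^ ((τ - 2) * j) :=
      Real.one_le_rpow (by norm_num) (mul_nonneg (by linarith) (Nat.cast_nonneg _))
    have h6 : (1 : ℝ) ≤ φ * (2 : ℝ) ^ ((τ - 2) * j) := by nlinarith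
    calc (((r + 2 ^ (2 * j) - 1) / 2 ^ (2 * j) : ℕ) : ℝ)
        ≤ ((r : ℝ) + (2 : ℝ) ^ (2 * (j : ℝ))) / (2 : ℝ) ^ (2 * (j : ℝ)) := by
          refine h1.trans ?_
          rw [hqe]
          exact div_le_div_of_nonneg_right h2 hq'.le
      _ ≤ 2 * φ * (2 : ℝ) ^ ((τ - 2) * j) := by
          rw [div_le_iff₀ hq']
          have h7 : (r : ℝ) ≤ φ * (2 : ℝ) ^ ((τ - 2) * j) * (2 : ℝ) ^ (2 * (j : ℝ)) :=
            hr.trans h4.le
          have h8 : (2 : ℝ) ^ (2 * (j : ℝ)) ≤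
              φ * (2 : ℝ) ^ ((τ - 2) * j) * (2 : ℝ) ^ (2 * (j : ℝ)) :=
            le_mul_of_one_le_left hq'.le h6
          linarith

theorem two_rpow_nat (n : ℕ) : ((2 ^ n : ℕ) : ℝ) = (2 : ℝ) ^ (n : ℝ) := by
  push_cast
  exact (Real.rpow_natCast _ _).symm

/-- the size in one step -/
theorem size_step {k j r a s1 s2 : ℕ} {τ φ H1 H2 : ℝ} (hφ : 1 ≤ φ) (hτ : 2 ≤ τ)
    (hj : 3 * j ≤ k) (hr : (r : ℝ) ≤ φ * (2 : ℝ) ^ (τ * j))
    (ha : (a : ℝ) ≤ 2 * φ * (2 : ℝ) ^ ((τ - 2) * j))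
    (hs1 : (s1 : ℝ) ≤ H1 * (2 : ℝ) ^ (τ * ((k - j : ℕ) : ℝ)))
    (hs2 : (s2 : ℝ) ≤ H2 * (2 : ℝ) ^ (τ * ((2 * j : ℕ) : ℝ)))
    (h21 : H2 ≤ H1) (h2 : 1 ≤ H2) :
    ((r * s1 + 3 * (a * 2 ^ (2 * (k - 2 * j)) * s2) +
      a * 2 ^ (2 * (k - 2 * j)) * 2 ^ (4 * j) : ℕ) : ℝ) ≤ 9 * φ * H1 * (2 : ℝ) ^ (τ * k) := by
  have hφ0 : 0 < φ := by linarith
  have hkj : ((k - j : ℕ) : ℝ) = (k : ℝ) - j := by
    rw [Nat.cast_sub (by omega)]
  have hk2j : ((k - 2 * j : ℕ) : ℝ) = (k : ℝ) - 2 * j := by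
    rw [Nat.cast_sub (by omega)]
    push_cast
    ring
  have hjk : 3 * (j : ℝ) ≤ k := by exact_mod_cast hj
  have hj0 : (0 : ℝ) ≤ j := Nat.cast_nonneg _
  have p1 : (0 : ℝ) < (2 : ℝ) ^ (τ * (k : ℝ)) := Real.rpow_pos_of_pos (by norm_num) _
  -- first term
  have t1 : (r : ℝ) * s1 ≤ φ * H1 * (2 : ℝ) ^ (τ * k) := by
    calc (r : ℝ) * s1 ≤ (φ * (2 : ℝ) ^ (τ * j)) * (H1 * (2 : ℝ) ^ (τ * ((k - j : ℕ) : ℝ))) :=
          mul_le_mul hr hs1 (Nat.cast_nonneg _) (by positivity)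
      _ = φ * H1 * ((2 : ℝ) ^ (τ * j) * (2 : ℝ) ^ (τ * ((k - j : ℕ) : ℝ))) := by ring
      _ = φ * H1 * (2 : ℝ) ^ (τ * k) := by
          rw [← Real.rpow_add (by norm_num), hkj]
          congr 2
          ring
  have hB : ((2 ^ (2 * (k - 2 * j)) : ℕ) : ℝ) = (2 : ℝ) ^ (2 * (k : ℝ) - 4 * j) := by
    rw [two_rpow_nat]
    congr 1
    push_cast
    rw [hk2j]
    ring
  -- second term
  have t2 : (a : ℝ) * (2 : ℝ) ^ (2 * (k : ℝ) - 4 * j) * s2 ≤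
      2 * φ * H2 * (2 : ℝ) ^ (τ * k) := by
    calc (a : ℝ) * (2 : ℝ) ^ (2 * (k : ℝ) - 4 * j) * s2
        ≤ (2 * φ * (2 : ℝ) ^ ((τ - 2) * j)) * (2 : ℝ) ^ (2 * (k : ℝ) - 4 * j) *
          (H2 * (2 : ℝ) ^ (τ * ((2 * j : ℕ) : ℝ))) := by
          refine mul_le_mul (mul_le_mul_of_nonneg_right ha (by positivity)) hs2
            (Nat.cast_nonneg _) (by positivity)
      _ = 2 * φ * H2 * ((2 : ℝ) ^ ((τ - 2) * j) * (2 : ℝ) ^ (2 * (k : ℝ) - 4 * j) *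
          (2 : ℝ) ^ (τ * ((2 * j : ℕ) : ℝ))) := by ring
      _ = 2 * φ * H2 * (2 : ℝ) ^ (τ * k - (τ - 2) * (k - 3 * j)) := by
          rw [← Real.rpow_add (by norm_num), ← Real.rpow_add (by norm_num)]
          congr 2
          push_cast
          ring
      _ ≤ 2 * φ * H2 * (2 : ℝ) ^ (τ * k) := by
          refine mul_le_mul_of_nonneg_left (Real.rpow_le_rpow_of_exponent_le (by norm_num) ?_)
            (by positivity)
          nlinarith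
  -- third term
  have hC : ((2 ^ (4 * j) : ℕ) : ℝ) = (2 : ℝ) ^ (4 * (j : ℝ)) := by
    rw [two_rpow_nat]
    congr 1
    push_cast
    ring
  have t3 : (a : ℝ) * (2 : ℝ) ^ (2 * (k : ℝ) - 4 * j) * (2 : ℝ) ^ (4 * (j : ℝ)) ≤
      2 * φ * (2 : ℝ) ^ (τ * k) := by
    calc (a : ℝ) * (2 : ℝ) ^ (2 * (k : ℝ) - 4 * j) * (2 : ℝ) ^ (4 * (j : ℝ))
        ≤ (2 * φ * (2 : ℝ) ^ ((τ - 2) * j)) * (2 : ℝ) ^ (2 * (k : ℝ) - 4 * j) *
          (2 : ℝ) ^ (4 * (j : ℝ)) :=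
          mul_le_mul_of_nonneg_right (mul_le_mul_of_nonneg_right ha (by positivity))
            (by positivity)
      _ = 2 * φ * ((2 : ℝ) ^ ((τ - 2) * j) * (2 : ℝ) ^ (2 * (k : ℝ) - 4 * j) *
          (2 : ℝ) ^ (4 * (j : ℝ))) := by ring
      _ = 2 * φ * (2 : ℝ) ^ (τ * k - (τ - 2) * (k - j)) := by
          rw [← Real.rpow_add (by norm_num), ← Real.rpow_add (by norm_num)]
          congr 2
          ring
      _ ≤ 2 * φ * (2 : ℝ) ^ (τ * k) := by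
          refine mul_le_mul_of_nonneg_left (Real.rpow_le_rpow_of_exponent_le (by norm_num) ?_)
            (by positivity)
          nlinarith
  rw [Nat.cast_add, Nat.cast_add, Nat.cast_mul, Nat.cast_mul, Nat.cast_mul, Nat.cast_mul,
    Nat.cast_mul, Nat.cast_mul, hB, hC]
  have hX : 0 < φ * (2 : ℝ) ^ (τ * k) := by positivity
  have u2 : 2 * φ * H2 * (2 : ℝ) ^ (τ * k) ≤ 2 * φ * H1 * (2 : ℝ) ^ (τ * k) := by
    have := mul_le_mul_of_nonneg_left h21 hX.le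
    nlinarith
  have u3 : 2 * φ * (2 : ℝ) ^ (τ * k) ≤ 2 * φ * H1 * (2 : ℝ) ^ (τ * k) := by
    have := mul_le_mul_of_nonneg_left (h2.trans h21) hX.le
    nlinarith
  push_cast
  linarith

/-- the choice of the parameters -/
theorem exists_params {η : ℝ} (hη : 0 < η) : ∃ (δ : ℝ) (k₀ : ℕ), 0 < δ ∧ δ ≤ 1 / 3 ∧
    ∀ k : ℕ, k₀ ≤ k → 1 ≤ ⌊δ * k⌋₊ ∧ 3 * ⌊δ * k⌋₊ ≤ k ∧
      ((k - ⌊δ * k⌋₊ : ℕ) : ℝ) + 1 ≤ (1 - δ / 2) * (k + 1) ∧
      (((k - ⌊δ * k⌋₊ : ℕ) : ℝ) + 1) ^ (1 + η) + 2 * (((2 * ⌊δ * k⌋₊ : ℕ) : ℝ) + 1) ^ (1 + η) +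
        δ / 4 * ((k : ℝ) + 1) ^ (1 + η) ≤ ((k : ℝ) + 1) ^ (1 + η) := by
  set δ : ℝ := min (1 / 3) ((1 / 24) ^ (1 / η) / 3) with hδd
  have hδ : 0 < δ := lt_min (by norm_num) (by positivity)
  have hδ3 : δ ≤ 1 / 3 := min_le_left _ _
  have hδη : (3 * δ) ^ η ≤ 1 / 24 := by
    have h1 : 3 * δ ≤ (1 / 24) ^ (1 / η) := by
      have := min_le_right (1 / 3) (((1 : ℝ) / 24) ^ (1 / η) / 3)
      rw [← hδd] at this
      linarith
    calc (3 * δ) ^ η ≤ ((1 / 24 : ℝ) ^ (1 / η)) ^ η :=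
          Real.rpow_le_rpow (by positivity) h1 hη.le
      _ = 1 / 24 := by
          rw [← Real.rpow_mul (by norm_num), one_div_mul_cancel hη.ne', Real.rpow_one]
  refine ⟨δ, ⌈5 / δ⌉₊, hδ, hδ3, fun k hk => ?_⟩
  have hk1 : 5 / δ ≤ k := (Nat.le_ceil _).trans (by exact_mod_cast hk)
  rw [div_le_iff₀ hδ] at hk1
  have hk5 : 5 ≤ δ * k := by linarith
  set j := ⌊δ * k⌋₊ with hj
  have hj1 : (j : ℝ) ≤ δ * k := Nat.floor_le (by positivity)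
  have hj2 : δ * k < j + 1 := Nat.lt_floor_add_one _
  have hk0 : (0 : ℝ) ≤ k := Nat.cast_nonneg _
  have hjk : 3 * j ≤ k := by
    have : 3 * (j : ℝ) ≤ k := by nlinarith
    exact_mod_cast this
  have hkj : ((k - j : ℕ) : ℝ) = (k : ℝ) - j := by
    rw [Nat.cast_sub (by omega)]
  have b1 : ((k - j : ℕ) : ℝ) + 1 ≤ (1 - 3 * δ / 4) * (k + 1) := by
    rw [hkj]
    nlinarith
  have b2 : ((2 * j : ℕ) : ℝ) + 1 ≤ 3 * δ * (k + 1) := by
    push_cast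
    nlinarith
  have hk10 : (0 : ℝ) < (k : ℝ) + 1 := by positivity
  refine ⟨?_, hjk, b1.trans ?_, ?_⟩
  · rw [Nat.one_le_iff_ne_zero]
    intro h0
    rw [h0] at hj2
    push_cast at hj2
    linarith
  · nlinarith
  · have hP : 0 < ((k : ℝ) + 1) ^ (1 + η) := Real.rpow_pos_of_pos hk10 _
    have c1 : (((k - j : ℕ) : ℝ) + 1) ^ (1 + η) ≤ (1 - 3 * δ / 4) * ((k : ℝ) + 1) ^ (1 + η) := by
      calc (((k - j : ℕ) : ℝ) + 1) ^ (1 + η) ≤ ((1 - 3 * δ / 4) * (k + 1)) ^ (1 + η) :=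
            Real.rpow_le_rpow (by positivity) b1 (by linarith)
        _ = (1 - 3 * δ / 4) ^ (1 + η) * ((k : ℝ) + 1) ^ (1 + η) :=
            Real.mul_rpow (by linarith) hk10.le
        _ ≤ (1 - 3 * δ / 4) * ((k : ℝ) + 1) ^ (1 + η) := by
            refine mul_le_mul_of_nonneg_right ?_ hP.le
            calc (1 - 3 * δ / 4) ^ (1 + η) ≤ (1 - 3 * δ / 4) ^ (1 : ℝ) :=
                  Real.rpow_le_rpow_of_exponent_ge (by linarith) (by linarith) (by linarith)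
              _ = _ := Real.rpow_one _
    have c2 : (((2 * j : ℕ) : ℝ) + 1) ^ (1 + η) ≤ (δ / 8) * ((k : ℝ) + 1) ^ (1 + η) := by
      calc (((2 * j : ℕ) : ℝ) + 1) ^ (1 + η) ≤ (3 * δ * (k + 1)) ^ (1 + η) :=
            Real.rpow_le_rpow (by positivity) b2 (by linarith)
        _ = (3 * δ) ^ (1 + η) * ((k : ℝ) + 1) ^ (1 + η) :=
            Real.mul_rpow (by linarith) hk10.le
        _ ≤ (δ / 8) * ((k : ℝ) + 1) ^ (1 + η) := by
            refine mul_le_mul_of_nonneg_right ?_ hP.le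
            rw [Real.rpow_add (by positivity), Real.rpow_one]
            nlinarith
    nlinarith

/-- **The recursion.** -/
theorem rec_bound {η τ : ℝ} {δ : ℝ} {k₀ : ℕ} (hτ : 2 ≤ τ) (hη : 0 < η) (hδ : 0 < δ)
    (hδ3 : δ ≤ 1 / 3)
    (hp : ∀ k : ℕ, k₀ ≤ k → 1 ≤ ⌊δ * k⌋₊ ∧ 3 * ⌊δ * k⌋₊ ≤ k ∧
      ((k - ⌊δ * k⌋₊ : ℕ) : ℝ) + 1 ≤ (1 - δ / 2) * (k + 1) ∧
      (((k - ⌊δ * k⌋₊ : ℕ) : ℝ) + 1) ^ (1 + η) + 2 * (((2 * ⌊δ * k⌋₊ : ℕ) : ℝ) + 1) ^ (1 + η) +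
        δ / 4 * ((k : ℝ) + 1) ^ (1 + η) ≤ ((k : ℝ) + 1) ^ (1 + η))
    {φ : ℝ} (hφ : 1 ≤ φ) (n : ℕ)
    (hr : ∀ j ≤ n, (trank K (2 ^ j) (2 ^ j) (2 ^ j) : ℝ) ≤ φ * (2 : ℝ) ^ (τ * j)) :
    ∀ k ≤ n, ∃ s d : ℕ, DMM K (Fin (2 ^ k)) s d ∧
      (s : ℝ) ≤ 2 * 8 ^ k₀ * ((k : ℝ) + 1) ^ (2 / δ * Real.log (9 * φ)) * (2 : ℝ) ^ (τ * k) ∧
      (d : ℝ) ≤ 4 / δ * ((k : ℝ) + 1) ^ (1 + η) := by
  set p : ℝ := 2 / δ * Real.log (9 * φ) with hpdef
  have hlog : 0 < Real.log (9 * φ) := Real.log_pos (by linarith)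
  have hp0 : 0 < p := by positivity
  intro k
  induction k using Nat.strong_induction_on with
  | _ k ih =>
  intro hk
  have hk0 : (0 : ℝ) ≤ k := Nat.cast_nonneg _
  have hk1 : (1 : ℝ) ≤ (k : ℝ) + 1 := by linarith
  by_cases hkk : k < k₀
  · -- the school method
    refine ⟨_, _, dmm_school (2 ^ k) k le_rfl, ?_, ?_⟩
    · have h1 : (1 : ℝ) ≤ ((k : ℝ) + 1) ^ p := Real.one_le_rpow hk1 hp0.le
      have h2 : (1 : ℝ) ≤ (2 : ℝ) ^ (τ * k) :=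
        Real.one_le_rpow (by norm_num) (mul_nonneg (by linarith) hk0)
      have h3 : ((2 * (2 ^ k) ^ 3 : ℕ) : ℝ) ≤ 2 * 8 ^ k₀ := by
        have : 2 * (2 ^ k) ^ 3 ≤ 2 * 8 ^ k₀ := by
          rw [← pow_mul, mul_comm k 3, pow_mul]
          exact Nat.mul_le_mul_left _ (Nat.pow_le_pow_right (by norm_num) hkk.le)
        exact_mod_cast this
      have h4 : (0 : ℝ) < 2 * 8 ^ k₀ := by positivity
      calc ((2 * (2 ^ k) ^ 3 : ℕ) : ℝ) ≤ 2 * 8 ^ k₀ := h3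
        _ ≤ 2 * 8 ^ k₀ * ((k : ℝ) + 1) ^ p := le_mul_of_one_le_right h4.le h1
        _ ≤ _ := le_mul_of_one_le_right (by positivity) h2
    · push_cast
      have h5 : (k : ℝ) + 1 ≤ ((k : ℝ) + 1) ^ (1 + η) := by
        conv_lhs => rw [← Real.rpow_one ((k : ℝ) + 1)]
        exact Real.rpow_le_rpow_of_exponent_le hk1 (by linarith)
      have h6 : 1 ≤ 4 / δ := by
        rw [le_div_iff₀ hδ]
        linarith
      have h7 : 0 ≤ ((k : ℝ) + 1) ^ (1 + η) := by positivity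
      nlinarith
  · push Not at hkk
    obtain ⟨q1, q2, q3, q4⟩ := hp k hkk
    set j := ⌊δ * k⌋₊ with hj
    have hjn : j ≤ n := by omega
    have hr3 : trank K (2 ^ j) (2 ^ j) (2 ^ j) ≤ 2 ^ (3 * j) := by
      refine (trank_le (rankLE_cube K _ _ _)).trans (le_of_eq ?_)
      rw [← pow_add, ← pow_add]
      congr 1
      ring
    obtain ⟨a, ha1, ha2, ha3⟩ := exists_blocks hφ hτ hr3 (hr j hjn)
    obtain ⟨s1, d1, hs1, hs1', hd1⟩ := ih (k - j) (by omega) (by omega)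
    obtain ⟨s2, d2, hs2, hs2', hd2⟩ := ih (2 * j) (by omega) (by omega)
    refine ⟨_, _, DMM.step_two (by omega) (rankLE_trank K _ _ _) hs1 hs2 ha1 ha2, ?_, ?_⟩
    · have hkj : ((k - j : ℕ) : ℝ) = (k : ℝ) - j := by
        rw [Nat.cast_sub (by omega)]
      have h2j : ((2 * j : ℕ) : ℝ) ≤ ((k - j : ℕ) : ℝ) := by
        exact_mod_cast (by omega : 2 * j ≤ k - j)
      have hA : (0 : ℝ) < 2 * 8 ^ k₀ := by positivity
      have hA1 : (1 : ℝ) ≤ 2 * 8 ^ k₀ := by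
        have : (1 : ℝ) ≤ 8 ^ k₀ := one_le_pow₀ (by norm_num)
        linarith
      refine (size_step hφ hτ q2 (hr j hjn) ha3 hs1' hs2'
        (mul_le_mul_of_nonneg_left (Real.rpow_le_rpow (by positivity) (by linarith) hp0.le)
          hA.le) ?_).trans ?_
      · have h8 : (1 : ℝ) ≤ (((2 * j : ℕ) : ℝ) + 1) ^ p :=
          Real.one_le_rpow (by
            have : (0 : ℝ) ≤ ((2 * j : ℕ) : ℝ) := Nat.cast_nonneg _
            linarith) hp0.le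
        nlinarith
      · refine mul_le_mul_of_nonneg_right ?_ (by positivity)
        -- the gain
        have h9 : (((k - j : ℕ) : ℝ) + 1) ^ p ≤ (1 / (9 * φ)) * ((k : ℝ) + 1) ^ p := by
          calc (((k - j : ℕ) : ℝ) + 1) ^ p ≤ ((1 - δ / 2) * (k + 1)) ^ p :=
                Real.rpow_le_rpow (by positivity) q3 hp0.le
            _ = (1 - δ / 2) ^ p * ((k : ℝ) + 1) ^ p :=
                Real.mul_rpow (by linarith) (by linarith)
            _ ≤ (1 / (9 * φ)) * ((k : ℝ) + 1) ^ p := by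
                refine mul_le_mul_of_nonneg_right ?_ (by positivity)
                have h10 : 1 - δ / 2 ≤ Real.exp (-(δ / 2)) := by
                  have := Real.add_one_le_exp (-(δ / 2))
                  linarith
                calc (1 - δ / 2) ^ p ≤ (Real.exp (-(δ / 2))) ^ p :=
                      Real.rpow_le_rpow (by linarith) h10 hp0.le
                  _ = Real.exp (-(δ / 2) * p) := by rw [← Real.exp_mul]
                  _ = Real.exp (-Real.log (9 * φ)) := by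
                      congr 1
                      rw [hpdef]
                      field_simp
                  _ = 1 / (9 * φ) := by
                      rw [Real.exp_neg, Real.exp_log (by linarith), one_div]
        have h11 : 0 < 9 * φ := by linarith
        calc 9 * φ * (2 * 8 ^ k₀ * (((k - j : ℕ) : ℝ) + 1) ^ p)
            = 2 * 8 ^ k₀ * (9 * φ * (((k - j : ℕ) : ℝ) + 1) ^ p) := by ring
          _ ≤ 2 * 8 ^ k₀ * ((k : ℝ) + 1) ^ p := by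
              refine mul_le_mul_of_nonneg_left ?_ hA.le
              have := mul_le_mul_of_nonneg_left h9 h11.le
              rw [← mul_assoc, mul_one_div_cancel h11.ne', one_mul] at this
              exact this
    · push_cast
      have hjk : (j : ℝ) ≤ (k : ℝ) + 1 := by
        have : j ≤ k := by omega
        have : (j : ℝ) ≤ k := by exact_mod_cast this
        linarith
      have h5 : (k : ℝ) + 1 ≤ ((k : ℝ) + 1) ^ (1 + η) := by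
        conv_lhs => rw [← Real.rpow_one ((k : ℝ) + 1)]
        exact Real.rpow_le_rpow_of_exponent_le hk1 (by linarith)
      have h6 : 0 < 4 / δ := by positivity
      have h7 := mul_le_mul_of_nonneg_left q4 h6.le
      have h8 : 4 / δ * (δ / 4 * ((k : ℝ) + 1) ^ (1 + η)) = ((k : ℝ) + 1) ^ (1 + η) := by
        field_simp
      have h9 : 4 / δ * ((((k - j : ℕ) : ℝ) + 1) ^ (1 + η) +
          2 * (((2 * j : ℕ) : ℝ) + 1) ^ (1 + η) + δ / 4 * ((k : ℝ) + 1) ^ (1 + η)) =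
          4 / δ * (((k - j : ℕ) : ℝ) + 1) ^ (1 + η) +
          2 * (4 / δ * (((2 * j : ℕ) : ℝ) + 1) ^ (1 + η)) +
          4 / δ * (δ / 4 * ((k : ℝ) + 1) ^ (1 + η)) := by ring
      rw [h9, h8] at h7
      linarith

end Pool.Agent.Helper16K9.Fast
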